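import Pool.Agent.W670.TL.Defs

set_option autoImplicit false

namespace Pool.Agent.W70.TL

open NumberField Pool.Agent.W670.TL

lemma one_le_D (K : Type) [Field K] [NumberField K] : 1 ≤ D K := by
  unfold D
  have h : discr K ≠ 0 := discr_ne_zero K
  have h2 : (1 : ℤ) ≤ |discr K| := Int.one_le_abs h
  have h3 : ((1 : ℤ) : ℝ) ≤ ((|discr K| : ℤ) : ℝ) := by exact_mod_cast h2
  rw [Int.cast_abs, Int.cast_one] at h3
  exact h3

open Classical in
/-- number of torsion classes, zero when the field is not a number field -/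
noncomputable def bb (ℓ : ℕ) (M : IntermediateField ℚ (AlgebraicClosure ℚ)) : ℝ :=
  if h : NumberField M then (tors M ℓ : ℝ) else 0

lemma bb_eq (ℓ : ℕ) (M : IntermediateField ℚ (AlgebraicClosure ℚ)) (h : NumberField M) :
    bb ℓ M = (tors M ℓ : ℝ) := by
  unfold bb
  rw [dif_pos h]

lemma bb_nonneg (ℓ : ℕ) (M : IntermediateField ℚ (AlgebraicClosure ℚ)) : 0 ≤ bb ℓ M := by
  unfold bb
  split_ifs
  · positivity
  · exact le_rfl

theorem fin (h1 : S_BIG) (h2 : S_MOD) (h3 : S_HER) : S_FIN := by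
  intro n q ℓ Δ θ hn hq hql hΔ hθ hnq hS ε hε
  obtain ⟨D₀, hD₀⟩ := h1 n q ℓ Δ θ hn hq hql hΔ hθ hnq hS ε hε
  have hfin := h3 D₀
  refine ⟨max 1 (∑ M ∈ hfin.toFinset, bb ℓ M), ?_⟩
  intro K _ _ hK
  obtain ⟨K', hK', hf, hD, ht⟩ := h2 K
  have hexp : 0 ≤ q * Δ / (1 - n * (q - 1) * θ) + ε := by
    have : 0 ≤ q * Δ / (1 - n * (q - 1) * θ) :=
      div_nonneg (mul_nonneg (Nat.cast_nonneg _) hΔ) (by linarith)
    linarith
  have hDpos : 1 ≤ D K ^ (q * Δ / (1 - n * (q - 1) * θ) + ε) :=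
    Real.one_le_rpow (one_le_D K) hexp
  by_cases hc : D₀ ≤ D K'
  · have h := hD₀ K' hK' (by rw [hf, hK]) hc
    rw [ht, hD] at h
    calc (tors K ℓ : ℝ) ≤ D K ^ (q * Δ / (1 - n * (q - 1) * θ) + ε) := h
      _ = 1 * D K ^ (q * Δ / (1 - n * (q - 1) * θ) + ε) := (one_mul _).symm
      _ ≤ _ := mul_le_mul_of_nonneg_right (le_max_left _ _) (by linarith)
  · push Not at hc
    have hmem : K' ∈ hfin.toFinset := by
      rw [Set.Finite.mem_toFinset]
      exact ⟨hK', hc.le⟩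
    have hle : bb ℓ K' ≤ ∑ M ∈ hfin.toFinset, bb ℓ M :=
      Finset.single_le_sum (fun M _ => bb_nonneg ℓ M) hmem
    rw [bb_eq ℓ K' hK', ht] at hle
    have hmax : (tors K ℓ : ℝ) ≤ max 1 (∑ M ∈ hfin.toFinset, bb ℓ M) :=
      hle.trans (le_max_right _ _)
    have h0 : (0 : ℝ) ≤ max 1 (∑ M ∈ hfin.toFinset, bb ℓ M) :=
      le_trans zero_le_one (le_max_left _ _)
    calc (tors K ℓ : ℝ) ≤ max 1 (∑ M ∈ hfin.toFinset, bb ℓ M) := hmax
      _ = max 1 (∑ M ∈ hfin.toFinset, bb ℓ M) * 1 := (mul_one _).symm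
      _ ≤ _ := mul_le_mul_of_nonneg_left hDpos h0

end Pool.Agent.W70.TL
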